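import Pool.Agent.Lib.MP_f3c5e4_al.Q2.FinF

set_option autoImplicit false

namespace Pool.Agent.Results.MP_f3c5e4_al.EveryFunction

open Pool.Agent.Lib.MP_f3c5e4_al

/-- Realization theorem, which contains the negative answer to Q2 (take `f n = n ^ (49 / 2)`): every
non-decreasing function between `n ^ 24` and a polynomial is, up to equivalence, the residual
finiteness growth (for every finite generating set) of a finitely generated residually finite group
which is not virtually nilpotent. -/
theorem result :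
    ∀ f : ℕ → ℝ, Monotone f → (∀ n : ℕ, (n : ℝ) ^ 24 ≤ f n) →
      (∃ C : ℕ, ∀ n : ℕ, f n ≤ C * (n : ℝ) ^ C) →
      ∃ (G : Type) (_ : Group G), Group.FG G ∧
        (∀ g : G, g ≠ 1 → ∃ N : Subgroup G, N.Normal ∧ N.index ≠ 0 ∧ g ∉ N) ∧
        (¬ ∃ K : Subgroup G, K.index ≠ 0 ∧ Group.IsNilpotent K) ∧
        ∀ S : Finset G, Subgroup.closure (S : Set G) = ⊤ →
          (∃ C : ℕ, 0 < C ∧ ∀ n : ℕ, rfGrowth S n ≤ C * n ^ C) ∧
          Dominated (fun n => (rfGrowth S n : ℝ)) f ∧
          Dominated f (fun n => (rfGrowth S n : ℝ)) :=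
  fun f hf hlow hup => Q2.mainF f hf hlow hup

end Pool.Agent.Results.MP_f3c5e4_al.EveryFunction
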