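import Pool.Agent.Lib.MP_f3c5e4_al.Main

set_option autoImplicit false

namespace Pool.Agent.Results.MP_f3c5e4_al.NotAPower

open Pool.Agent.Lib.MP_f3c5e4_al

/-- Negative answer to Q1: there is a finitely generated residually finite group which is not
virtually nilpotent and whose residual finiteness growth is, for every finite generating set,
bounded by a polynomial but not equivalent to `n ^ α` for any real `α > 0`. (The witness is the
lamplighter group.) -/
theorem result :
    ∃ (G : Type) (_ : Group G), Group.FG G ∧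
      (∀ g : G, g ≠ 1 → ∃ N : Subgroup G, N.Normal ∧ N.index ≠ 0 ∧ g ∉ N) ∧
      (¬ ∃ K : Subgroup G, K.index ≠ 0 ∧ Group.IsNilpotent K) ∧
      ∀ S : Finset G, Subgroup.closure (S : Set G) = ⊤ →
        (∃ C : ℕ, 0 < C ∧ ∀ n : ℕ, rfGrowth S n ≤ C * n ^ C) ∧
        ∀ α : ℝ, 0 < α →
          ¬ (Dominated (fun n => (rfGrowth S n : ℝ)) (fun n => (n : ℝ) ^ α) ∧
             Dominated (fun n => (n : ℝ) ^ α) (fun n => (rfGrowth S n : ℝ))) := by
  refine ⟨Lamp, inferInstance, lamp_fg, lamp_rf, lamp_not_vnilp, ?_⟩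
  intro S hS
  refine ⟨poly_bound S, ?_⟩
  rintro α hα ⟨h1, h2⟩
  rcases lt_or_ge α 2 with h | h
  · exact not_dominated_lt S hS α hα h h1
  · exact not_dominated_ge S α h h2

end Pool.Agent.Results.MP_f3c5e4_al.NotAPower
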